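import Pool.Agent.Helper62.NE.Feat
import Pool.Agent.Helper59.TS.CuBox

/-!
# The boxes of the slots

`lo0 s`, `hi0 s` (shifted by `20`) bound the slot `s` for every configuration; `cell0`: a cell is absent or present.
-/

set_option autoImplicit false

namespace Pool.Agent.Helper59.NE

open Pool.Agent.Helper90.TS Pool.Agent.Helper62.NE Pool.Agent.Helper59.TS.CB

/-- the lower bounds plus `20` -/
def lo0 (s : ℕ) : ℕ := nth 0 [0, 0, 0, 15, 15, 30, 0, 0, 0, 15, 15, 30, 0, 20, 20, 20, 0, 20, 20, 20,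
  0, 20, 20, 20, 0, 20, 20, 20, 0, 20, 20, 20, 0, 20, 20, 20] s

/-- the upper bounds plus `20` -/
def hi0 (s : ℕ) : ℕ := nth 0 [40, 40, 40, 60, 60, 40, 40, 40, 40, 60, 60, 40, 40, 60, 60, 60, 40, 60, 60, 60,
  40, 60, 60, 60, 40, 60, 60, 60, 40, 60, 60, 60, 40, 60, 60, 60] s

theorem lo0_le60 : ∀ s < 36, lo0 s ≤ 60 ∧ hi0 s ≤ 60 := by
  decide

/-- **The boxes.** -/
theorem box0 {c : Cu} (h : c.Ok) : ∀ s < 36, (lo0 s : ℝ) - 20 ≤ sl c s ∧ sl c s ≤ (hi0 s : ℝ) - 20 := by
  have r2 : (2 : Fin 4) = 2 ∨ (2 : Fin 4) = 3 := Or.inl rfl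
  have r3 : (3 : Fin 4) = 2 ∨ (3 : Fin 4) = 3 := Or.inr rfl
  have i0 : (0 : Fin 4) = 0 ∨ (0 : Fin 4) = 1 := Or.inl rfl
  have i1 : (1 : Fin 4) = 0 ∨ (1 : Fin 4) = 1 := Or.inr rfl
  have v21 := v_box h (m := 1) r2 (by decide)
  have v23 := v_box h (m := 3) r2 (by decide)
  have v20 := v_box h (m := 0) r2 (by decide)
  have v30 := v_box h (m := 0) r3 (by decide)
  have v32 := v_box h (m := 2) r3 (by decide)
  have v31 := v_box h (m := 1) r3 (by decide)
  have p213 := p_box h (j := 1) (k := 3) (l := 0) r2 (by decide)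
  have p230 := p_box h (j := 3) (k := 0) (l := 1) r2 (by decide)
  have p302 := p_box h (j := 0) (k := 2) (l := 1) r3 (by decide)
  have p321 := p_box h (j := 2) (k := 1) (l := 0) r3 (by decide)
  have e2 := e_box h r2
  have e3 := e_box h r3
  have w01 := w_box h (m := 1) (r := 2) (z := 3) i0 (by decide)
  have w02 := w_box h (m := 2) (r := 1) (z := 3) i0 (by decide)
  have w03 := w_box h (m := 3) (r := 1) (z := 2) i0 (by decide)
  have w10 := w_box h (m := 0) (r := 2) (z := 3) i1 (by decide)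
  have w12 := w_box h (m := 2) (r := 0) (z := 3) i1 (by decide)
  have w13 := w_box h (m := 3) (r := 0) (z := 2) i1 (by decide)
  have d01 := D_box h (m := 1) (r := 2) (z := 3) i0 (by decide)
  have d02 := D_box h (m := 2) (r := 1) (z := 3) i0 (by decide)
  have d03 := D_box h (m := 3) (r := 1) (z := 2) i0 (by decide)
  have d10 := D_box h (m := 0) (r := 2) (z := 3) i1 (by decide)
  have d12 := D_box h (m := 2) (r := 0) (z := 3) i1 (by decide)
  have d13 := D_box h (m := 3) (r := 0) (z := 2) i1 (by decide)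
  have x012 := X_box h (m := 1) (r := 2) (z := 3) i0 (by decide)
  have x013 := X_box h (m := 1) (r := 3) (z := 2) i0 (by decide)
  have x021 := X_box h (m := 2) (r := 1) (z := 3) i0 (by decide)
  have x023 := X_box h (m := 2) (r := 3) (z := 1) i0 (by decide)
  have x031 := X_box h (m := 3) (r := 1) (z := 2) i0 (by decide)
  have x032 := X_box h (m := 3) (r := 2) (z := 1) i0 (by decide)
  have x102 := X_box h (m := 0) (r := 2) (z := 3) i1 (by decide)
  have x103 := X_box h (m := 0) (r := 3) (z := 2) i1 (by decide)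
  have x120 := X_box h (m := 2) (r := 0) (z := 3) i1 (by decide)
  have x123 := X_box h (m := 2) (r := 3) (z := 0) i1 (by decide)
  have x130 := X_box h (m := 3) (r := 0) (z := 2) i1 (by decide)
  have x132 := X_box h (m := 3) (r := 2) (z := 0) i1 (by decide)
  intro s hs
  interval_cases s <;> norm_num [lo0, hi0, nth_zero, nth_succ, sl] <;> constructor <;> linarith

/-- every slot is in `[-20, 40]` -/
theorem box40 {c : Cu} (h : c.Ok) (s : ℕ) (hs : s < 36) : -20 ≤ sl c s ∧ sl c s ≤ 40 := by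
  have h1 := box0 h s hs
  have h2 := lo0_le60 s hs
  have h3 : (hi0 s : ℝ) ≤ 60 := by exact_mod_cast h2.2
  have h4 : (0 : ℝ) ≤ lo0 s := Nat.cast_nonneg _
  exact ⟨by linarith, by linarith⟩

/-- an absent or present cell in terms of its four slots -/
def Cell0 (w X Y D : ℝ) : Prop :=
  (w = -20 ∧ X = 0 ∧ Y = 0 ∧ D = 40) ∨
    (0 < w ∧ w ≤ 20 ∧ 0 < X ∧ 0 < Y ∧ 0 ≤ D ∧ D < 20 ∧ X + Y + D = 20 + w)

theorem cell_of {c : Cu} (h : c.Ok) {i m r z : Fin 4} (hi : i = 0 ∨ i = 1) (hn : [i, m, r, z].Nodup) :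
    Cell0 (c.w i m) (c.X i m r) (c.X i m z) (c.D i m) := by
  rcases h.cell i m r z hi hn with k | k
  · exact Or.inr ⟨k.w0, k.w1, k.X0, k.Y0, k.D0, k.D1, by linarith [k.sum]⟩
  · exact Or.inl ⟨k.w, k.X, k.Y, k.D⟩

/-- **The cells.** -/
theorem cell0 {c : Cu} (h : c.Ok) : ∀ j < 6, Cell0 (sl c (12 + 4 * j)) (sl c (13 + 4 * j))
    (sl c (14 + 4 * j)) (sl c (15 + 4 * j)) := by
  intro j hj
  interval_cases j
  · exact cell_of h (i := 0) (m := 1) (r := 2) (z := 3) (Or.inl rfl) (by decide)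
  · exact cell_of h (i := 0) (m := 2) (r := 1) (z := 3) (Or.inl rfl) (by decide)
  · exact cell_of h (i := 0) (m := 3) (r := 1) (z := 2) (Or.inl rfl) (by decide)
  · exact cell_of h (i := 1) (m := 0) (r := 2) (z := 3) (Or.inr rfl) (by decide)
  · exact cell_of h (i := 1) (m := 2) (r := 0) (z := 3) (Or.inr rfl) (by decide)
  · exact cell_of h (i := 1) (m := 3) (r := 0) (z := 2) (Or.inr rfl) (by decide)

end Pool.Agent.Helper59.NE
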