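import Pool.Agent.Helper51.NE.ClassS
import Pool.Agent.Helper56.NE.Eval
import Pool.Agent.Helper56.NE.ClassCu
import Pool.Agent.Helper59.NE.Box

/-!
# The grid states of a cell

A real cell, absent or present, in a box of natural numbers (shifted by `20`); its neighbours on the grid are
states of the absent, the capped or the free variant.
-/

set_option autoImplicit false

namespace Pool.Agent.Helper59.NE

open Pool.Agent.Helper95.TS Pool.Agent.Helper90.TS Pool.Agent.Helper62.NE Pool.Agent.Helper56.NE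
  Pool.Agent.Helper51.NE

theorem nth_getD (l : List ℕ) : ∀ k, nth 0 l k = l.getD k 0 := by
  induction l with
  | nil => intro k; rfl
  | cons a l ih =>
    intro k
    cases k with
    | zero => rfl
    | succ k =>
      rw [nth_succ, ih k]
      rfl

theorem ltab_vof (l : List ℕ) (n : ℤ) : ltab l n = ((vof l n : ℤ) : ℝ) := by
  unfold ltab vof
  rw [nth_getD]
  push_cast
  ring

/-- the tables of a cell -/
noncomputable def T4 (tw tx ty td : List ℕ) : Tab := ⟨ltab tw, ltab tx, ltab ty, ltab td⟩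

/-- the value of a grid cell -/
def gv (tw tx ty td : List ℕ) (g : GC) : ℤ := 4 * g.vol + vof tw g.w + vof tx g.X + vof ty g.Y + vof td g.D

theorem gv_real (tw tx ty td : List ℕ) (g : GC) :
    ((gv tw tx ty td g : ℤ) : ℝ) = 4 * (g.vol : ℝ) + (T4 tw tx ty td).grid g := by
  unfold gv T4 Tab.grid
  simp only [ltab_vof]
  push_cast
  ring

/-- a present cell -/
structure Pr0 (r : RC) : Prop where
  w0 : 0 < r.w
  w1 : r.w ≤ 20
  X0 : 0 < r.X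
  Y0 : 0 < r.Y
  D0 : 0 ≤ r.D
  D1 : r.D < 20
  sum : r.X + r.Y + r.D = 20 + r.w

/-- an absent cell -/
structure Ab0 (r : RC) : Prop where
  w : r.w = -20
  X : r.X = 0
  Y : r.Y = 0
  D : r.D = 40

/-- the state of an absent cell -/
theorem Ab0.near {r : RC} (h : Ab0 r) {g : GC} (hg : NearC r g) : g = ⟨-20, 0, 0, 40⟩ :=
  AbC.near (f := 0) ⟨h.w, h.X, h.Y, h.D, rfl⟩ hg

theorem sub_le {l : ℕ} {x : ℝ} (h : (l : ℝ) - 20 ≤ x) (h0 : 0 ≤ x) : ((l - 20 : ℕ) : ℝ) ≤ x := by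
  rcases le_total l 20 with k | k
  · rw [Nat.sub_eq_zero_of_le k]
    simpa using h0
  · rw [Nat.cast_sub k]
    push_cast
    exact h

theorem le_sub {l : ℕ} {x : ℝ} (h : x ≤ (l : ℝ) - 20) : x ≤ ((l - 20 : ℕ) : ℝ) := by
  rcases le_total l 20 with k | k
  · have k' : (l : ℝ) ≤ 20 := by exact_mod_cast k
    have h0 : (0 : ℝ) ≤ ((l - 20 : ℕ) : ℝ) := Nat.cast_nonneg _
    linarith
  · rw [Nat.cast_sub k]
    push_cast
    exact h

/-- a neighbour of a present cell in a box is in the variant with this box -/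
theorem Pr0.in_var {r : RC} (h : Pr0 r) {g : GC} (hg : NearC r g) (hs : g.Sum) {v : VarP}
    (w1 : (v.w0 : ℝ) ≤ r.w) (w2 : r.w ≤ v.w1) (x1 : (v.x0 : ℝ) ≤ r.X) (x2 : r.X ≤ v.x1)
    (y1 : (v.y0 : ℝ) ≤ r.Y) (y2 : r.Y ≤ v.y1) (d1 : (v.d0 : ℝ) ≤ r.D) (d2 : r.D ≤ v.d1) :
    v.In g (gv v.tw v.tx v.ty v.td g) := by
  have lo : ∀ {x : ℝ} {m : ℤ} {l : ℕ}, Near x m → (l : ℝ) ≤ x → (l : ℤ) ≤ m := fun k e =>
    k.ge_of_ge (by push_cast; exact e)
  have hi : ∀ {x : ℝ} {m : ℤ} {l : ℕ}, Near x m → x ≤ (l : ℝ) → m ≤ (l : ℤ) := fun k e =>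
    k.le_of_le (by push_cast; exact e)
  have hw0 : 0 ≤ g.w := hg.w.ge_of_ge (by push_cast; exact h.w0.le)
  have hw1 : g.w ≤ 20 := hg.w.le_of_le (by push_cast; exact h.w1)
  have hX0 : 0 ≤ g.X := hg.X.ge_of_ge (by push_cast; exact h.X0.le)
  have hY0 : 0 ≤ g.Y := hg.Y.ge_of_ge (by push_cast; exact h.Y0.le)
  have hD0 : 0 ≤ g.D := hg.D.ge_of_ge (by push_cast; exact h.D0)
  have hD1 : g.D ≤ 20 := hg.D.le_of_le (by push_cast; exact h.D1.le)
  have hsum : g.X + g.Y + g.D = 20 + g.w := by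
    rcases hs with hs | hs
    · exact hs
    · rw [hs] at hw0
      norm_num at hw0
  exact ⟨hw0, hw1, hX0, hY0, hD0, hD1, hsum, ⟨lo hg.w w1, hi hg.w w2⟩, ⟨lo hg.X x1, hi hg.X x2⟩,
    ⟨lo hg.Y y1, hi hg.Y y2⟩, ⟨lo hg.D d1, hi hg.D d2⟩, rfl⟩

theorem cell_cases {w X Y D : ℝ} (h : Cell0 w X Y D) : Ab0 ⟨w, X, Y, D⟩ ∨ Pr0 ⟨w, X, Y, D⟩ := by
  rcases h with ⟨h1, h2, h3, h4⟩ | ⟨h1, h2, h3, h4, h5, h6, h7⟩
  · exact Or.inl ⟨h1, h2, h3, h4⟩
  · exact Or.inr ⟨h1, h2, h3, h4, h5, h6, h7⟩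

theorem cell_cases' {w X Y D : ℝ} (h : Cell0 w X Y D) : Ab0 ⟨w, Y, X, D⟩ ∨ Pr0 ⟨w, Y, X, D⟩ := by
  rcases h with ⟨h1, h2, h3, h4⟩ | ⟨h1, h2, h3, h4, h5, h6, h7⟩
  · exact Or.inl ⟨h1, h3, h2, h4⟩
  · exact Or.inr ⟨h1, h2, h4, h3, h5, h6, by show Y + X + D = 20 + w; linarith⟩

end Pool.Agent.Helper59.NE
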