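import Pool.Agent.Helper59.NE.MkCell

/-!
# The two class blocks of a leaf

`lo s`, `hi s` the boxes of the slots, `t s μ` the tables; `Blk`: the conditions on the numbers of a class.
-/

set_option autoImplicit false

namespace Pool.Agent.Helper59.NE

open Pool.Agent.Helper95.TS Pool.Agent.Helper90.TS Pool.Agent.Helper62.NE Pool.Agent.Helper56.NE
  Pool.Agent.Helper51.NE Pool.Agent.Helper53.NE

/-- the conditions of the main alternative -/
def MainC (C : ℕ) (m : ℕ × ℕ × ℕ × ℕ × ℕ) (d0 d1 d2 : CellD) : Prop :=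
  majOK m.1 m.2.1 = true ∧ mainOK m.2.2.1 m.2.2.2.1 m.2.2.2.2 m.2.1 d0 d1 d2 = true ∧
    m.1 + m.2.2.1 + m.2.2.2.1 + m.2.2.2.2 ≤ C

/-- the price of a slot -/
noncomputable def px (c : Cu) (t : ℕ → Bool → List ℕ) (s : ℕ) : ℝ :=
  interp (ltab (t s (cpd c s))) (sl c s)

section

variable {c : Cu} {lo hi : ℕ → ℕ} {t : ℕ → Bool → List ℕ}

/-- the four slots of a cell have the same state -/
theorem cpd_eq {s s' : ℕ} (h : ds s = ds s') : cpd c s = cpd c s' := by
  unfold cpd Capd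
  rw [h]

variable (hb : ∀ s < 36, (lo s : ℝ) - 20 ≤ sl c s ∧ sl c s ≤ (hi s : ℝ) - 20)

include hb

theorem bx_of {sw sX sY sD : ℕ} (h1 : sw < 36) (h2 : sX < 36) (h3 : sY < 36) (h4 : sD < 36) :
    Bx ⟨sl c sw, sl c sX, sl c sY, sl c sD⟩ lo hi sw sX sY sD :=
  ⟨(hb sw h1).1, (hb sw h1).2, (hb sX h2).1, (hb sX h2).2, (hb sY h3).1, (hb sY h3).2,
    (hb sD h4).1, (hb sD h4).2⟩

theorem sts_of {sw sX sY sD : ℕ} (h1 : sw < 36) (h2 : sX < 36) (h3 : sY < 36) (h4 : sD < 36)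
    (k1 : ds sw = sD) (k2 : ds sX = sD) (k3 : ds sY = sD) (k4 : ds sD = sD)
    (hr : Ab0 ⟨sl c sw, sl c sX, sl c sY, sl c sD⟩ ∨ Pr0 ⟨sl c sw, sl c sX, sl c sY, sl c sD⟩) :
    Sts ⟨sl c sw, sl c sX, sl c sY, sl c sD⟩ (mkCell lo hi t sw sX sY sD) (t sw (cpd c sw))
      (t sX (cpd c sX)) (t sY (cpd c sY)) (t sD (cpd c sD)) := by
  rw [cpd_eq (c := c) (k1.trans k4.symm), cpd_eq (c := c) (k2.trans k4.symm),
    cpd_eq (c := c) (k3.trans k4.symm)]
  refine sts_mk hr (bx_of hb h1 h2 h3 h4) (fun h => cpd_true (by rw [k4]; exact h))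
    (fun h => cpd_false (by rw [k4]; exact h))

variable (h : c.Ok) {C : ℕ} {m : ℕ × ℕ × ℕ × ℕ × ℕ}

include h

/-- **The class `0`.** -/
theorem blk0
    (h1 : c.mf 0 = 0 → classOK C (mkCell lo hi t 12 14 13 15) (mkCell lo hi t 16 17 18 19)
      (mkCell lo hi t 20 22 21 23) = true)
    (h2 : c.mf 0 ≠ 0 → MainC C m (mkCell lo hi t 12 14 13 15) (mkCell lo hi t 16 17 18 19)
      (mkCell lo hi t 20 22 21 23)) :
    96000 * (c.mf 0 + c.f 0 1 + c.f 0 2 + c.f 0 3) +
      (px c t 12 + px c t 13 + px c t 14 + px c t 15 + (px c t 16 + px c t 17 + px c t 18 + px c t 19)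
        + (px c t 20 + px c t 21 + px c t 22 + px c t 23)) ≤ (C : ℝ) - 3 * 16809216 + 264 := by
  have k := block_of h (i := 0) (m0 := 1) (m1 := 2) (m2 := 3) (Or.inl rfl) (by decide)
    (sts_of hb (t := t) (sw := 12) (sX := 14) (sY := 13) (sD := 15) (by norm_num) (by norm_num)
      (by norm_num) (by norm_num) rfl rfl rfl rfl (cell_cases' (cell0 h 0 (by norm_num))))
    (sts_of hb (t := t) (sw := 16) (sX := 17) (sY := 18) (sD := 19) (by norm_num) (by norm_num)
      (by norm_num) (by norm_num) rfl rfl rfl rfl (cell_cases (cell0 h 1 (by norm_num))))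
    (sts_of hb (t := t) (sw := 20) (sX := 22) (sY := 21) (sD := 23) (by norm_num) (by norm_num)
      (by norm_num) (by norm_num) rfl rfl rfl rfl (cell_cases' (cell0 h 2 (by norm_num))))
    h1 h2
  refine le_trans (le_of_eq ?_) k
  show _ = 96000 * (c.mf 0 + c.f 0 1 + c.f 0 2 + c.f 0 3)
    + (px c t 12 + px c t 14 + px c t 13 + px c t 15) + (px c t 16 + px c t 17 + px c t 18 + px c t 19)
    + (px c t 20 + px c t 22 + px c t 21 + px c t 23)
  ring

/-- **The class `1`.** -/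
theorem blk1
    (h1 : c.mf 1 = 0 → classOK C (mkCell lo hi t 24 26 25 27) (mkCell lo hi t 28 29 30 31)
      (mkCell lo hi t 32 34 33 35) = true)
    (h2 : c.mf 1 ≠ 0 → MainC C m (mkCell lo hi t 24 26 25 27) (mkCell lo hi t 28 29 30 31)
      (mkCell lo hi t 32 34 33 35)) :
    96000 * (c.mf 1 + c.f 1 0 + c.f 1 2 + c.f 1 3) +
      (px c t 24 + px c t 25 + px c t 26 + px c t 27 + (px c t 28 + px c t 29 + px c t 30 + px c t 31)
        + (px c t 32 + px c t 33 + px c t 34 + px c t 35)) ≤ (C : ℝ) - 3 * 16809216 + 264 := by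
  have k := block_of h (i := 1) (m0 := 0) (m1 := 2) (m2 := 3) (Or.inr rfl) (by decide)
    (sts_of hb (t := t) (sw := 24) (sX := 26) (sY := 25) (sD := 27) (by norm_num) (by norm_num)
      (by norm_num) (by norm_num) rfl rfl rfl rfl (cell_cases' (cell0 h 3 (by norm_num))))
    (sts_of hb (t := t) (sw := 28) (sX := 29) (sY := 30) (sD := 31) (by norm_num) (by norm_num)
      (by norm_num) (by norm_num) rfl rfl rfl rfl (cell_cases (cell0 h 4 (by norm_num))))
    (sts_of hb (t := t) (sw := 32) (sX := 34) (sY := 33) (sD := 35) (by norm_num) (by norm_num)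
      (by norm_num) (by norm_num) rfl rfl rfl rfl (cell_cases' (cell0 h 5 (by norm_num))))
    h1 h2
  refine le_trans (le_of_eq ?_) k
  show _ = 96000 * (c.mf 1 + c.f 1 0 + c.f 1 2 + c.f 1 3)
    + (px c t 24 + px c t 26 + px c t 25 + px c t 27) + (px c t 28 + px c t 29 + px c t 30 + px c t 31)
    + (px c t 32 + px c t 34 + px c t 33 + px c t 35)
  ring

end

end Pool.Agent.Helper59.NE
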