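import Pool.Agent.Helper59.NE.CellVal
import Pool.Agent.Helper56.NE.MajNat

/-!
# The class block from the checks

The checks of `Helper51.NE` bound the class block of a configuration when the neighbours of its three cells are
states of the three cells of the check.
-/

set_option autoImplicit false

namespace Pool.Agent.Helper59.NE

open Pool.Agent.Helper95.TS Pool.Agent.Helper90.TS Pool.Agent.Helper62.NE Pool.Agent.Helper56.NE
  Pool.Agent.Helper51.NE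

/-- the neighbours of the real cell are states of the cell of the check, with the four tables -/
def Sts (r : RC) (d : CellD) (tw tx ty td : List ℕ) : Prop :=
  ∀ g : GC, NearC r g → g.Sum → d.Val g (gv tw tx ty td g)

section

variable {c : Cu} {i m0 m1 m2 : Fin 4} {d0 d1 d2 : CellD}
  {a0 b0 e0 f0 a1 b1 e1 f1 a2 b2 e2 f2 : List ℕ}

/-- **The class block without main cell.** -/
theorem class_of (h : c.Ok) (hi : i = 0 ∨ i = 1) (hn : [i, m0, m1, m2].Nodup)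
    (v0 : Sts (cuC c i m0 m2 m1) d0 a0 b0 e0 f0) (v1 : Sts (cuC c i m1 m0 m2) d1 a1 b1 e1 f1)
    (v2 : Sts (cuC c i m2 m1 m0) d2 a2 b2 e2 f2) {M : ℕ} (hM : classOK M d0 d1 d2 = true) :
    96000 * (c.f i m0 + c.f i m1 + c.f i m2) + (T4 a0 b0 e0 f0).real (cuC c i m0 m2 m1)
      + (T4 a1 b1 e1 f1).real (cuC c i m1 m0 m2) + (T4 a2 b2 e2 f2).real (cuC c i m2 m1 m0)
      ≤ (M : ℝ) - 3 * 16809216 + 264 := by
  refine cu_class h hi hn _ _ _ fun o0 o1 o2 g0 g1 g2 n0 n1 n2 s0 s1 s2 ht => ?_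
  have k := class_sound hM o0 o1 o2 (v0 g0 n0 s0) (v1 g1 n1 s1) (v2 g2 n2 s2) ht
  have k' : ((gv a0 b0 e0 f0 g0 + gv a1 b1 e1 f1 g1 + gv a2 b2 e2 f2 g2 : ℤ) : ℝ) ≤
      (((M : ℤ) - 3 * 16809216 : ℤ) : ℝ) := by exact_mod_cast k
  push_cast [gv_real] at k'
  linarith

theorem main_aux {bw : ℕ} {tw tx ty td : List ℕ} {g : GC} {mo : ℕ}
    (h : gv tw tx ty td g - bw * max g.w 0 ≤ (mo : ℤ) - 16809216) :
    4 * (g.vol : ℝ) + (T4 tw tx ty td).grid g - 4800 * ((bw : ℝ) / 4800) * ((max g.w 0 : ℤ) : ℝ) ≤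
      (mo : ℝ) - 16809216 := by
  have k : ((gv tw tx ty td g - bw * max g.w 0 : ℤ) : ℝ) ≤ (((mo : ℤ) - 16809216 : ℤ) : ℝ) := by
    exact_mod_cast h
  rw [Int.cast_sub, gv_real, Int.cast_mul] at k
  rw [show (4800 : ℝ) * ((bw : ℝ) / 4800) = bw by ring]
  push_cast at k ⊢
  linarith

/-- **The main alternative.** -/
theorem main_of (h : c.Ok) (hi : i = 0 ∨ i = 1) (hn : [i, m0, m1, m2].Nodup)
    (v0 : Sts (cuC c i m0 m2 m1) d0 a0 b0 e0 f0) (v1 : Sts (cuC c i m1 m0 m2) d1 a1 b1 e1 f1)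
    (v2 : Sts (cuC c i m2 m1 m0) d2 a2 b2 e2 f2) (hmf : c.mf i ≠ 0) {al bw mo0 mo1 mo2 : ℕ}
    (hp : majOK al bw = true) (hM : mainOK mo0 mo1 mo2 bw d0 d1 d2 = true) :
    96000 * (c.mf i + c.f i m0 + c.f i m1 + c.f i m2) + (T4 a0 b0 e0 f0).real (cuC c i m0 m2 m1)
      + (T4 a1 b1 e1 f1).real (cuC c i m1 m0 m2) + (T4 a2 b2 e2 f2).real (cuC c i m2 m1 m0)
      ≤ (al : ℝ) + mo0 + mo1 + mo2 - 3 * 16809216 + 264 := by
  obtain ⟨k0, k1, k2⟩ := main_sound hM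
  have k := cu_main h hi hn (T4 a0 b0 e0 f0) (T4 a1 b1 e1 f1) (T4 a2 b2 e2 f2) (majpair_of hp) hmf
    (M0 := (mo0 : ℝ) - 16809216) (M1 := (mo1 : ℝ) - 16809216) (M2 := (mo2 : ℝ) - 16809216)
    (fun g n s => main_aux (k0 g _ (v0 g n s))) (fun g n s => main_aux (k1 g _ (v1 g n s)))
    (fun g n s => main_aux (k2 g _ (v2 g n s)))
  refine k.trans (le_of_eq ?_)
  ring

/-- **The class block of a leaf.** `s = 1`: only the class check, `s = 2`: only the main check, else both. -/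
theorem block_of (h : c.Ok) (hi : i = 0 ∨ i = 1) (hn : [i, m0, m1, m2].Nodup)
    (v0 : Sts (cuC c i m0 m2 m1) d0 a0 b0 e0 f0) (v1 : Sts (cuC c i m1 m0 m2) d1 a1 b1 e1 f1)
    (v2 : Sts (cuC c i m2 m1 m0) d2 a2 b2 e2 f2) {C al bw mo0 mo1 mo2 : ℕ}
    (h1 : c.mf i = 0 → classOK C d0 d1 d2 = true)
    (h2 : c.mf i ≠ 0 → majOK al bw = true ∧ mainOK mo0 mo1 mo2 bw d0 d1 d2 = true ∧
      al + mo0 + mo1 + mo2 ≤ C) :
    96000 * (c.mf i + c.f i m0 + c.f i m1 + c.f i m2) + (T4 a0 b0 e0 f0).real (cuC c i m0 m2 m1)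
      + (T4 a1 b1 e1 f1).real (cuC c i m1 m0 m2) + (T4 a2 b2 e2 f2).real (cuC c i m2 m1 m0)
      ≤ (C : ℝ) - 3 * 16809216 + 264 := by
  by_cases hmf : c.mf i = 0
  · have k := class_of h hi hn v0 v1 v2 (h1 hmf)
    rw [hmf]
    linarith
  · obtain ⟨k1, k2, k3⟩ := h2 hmf
    have k := main_of h hi hn v0 v1 v2 hmf k1 k2
    have k4 : ((al + mo0 + mo1 + mo2 : ℕ) : ℝ) ≤ (C : ℝ) := by exact_mod_cast k3
    push_cast at k4
    linarith

end

end Pool.Agent.Helper59.NE
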