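import Pool.Agent.Helper62.NE.Price
import Pool.Agent.Helper56.NE.ClassCu

/-!
# The sum of the prices on the slots is the sum of the prices of the relations
-/

set_option autoImplicit false

namespace Pool.Agent.Helper59.NE

open Pool.Agent.Helper90.TS Pool.Agent.Helper95.TS Pool.Agent.Helper62.NE Finset

/-! ### Interpolation is linear -/

theorem interp_add59 (φ ψ : ℤ → ℝ) (x : ℝ) :
    interp (fun n => φ n + ψ n) x = interp φ x + interp ψ x := by
  unfold interp
  ring

theorem interp_sub59 (φ ψ : ℤ → ℝ) (x : ℝ) :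
    interp (fun n => φ n - ψ n) x = interp φ x - interp ψ x := by
  unfold interp
  ring

theorem interp_lin59 (a x : ℝ) : interp (fun n => a * n) x = a * x := by
  unfold interp
  push_cast
  ring

theorem interp_const59 (a x : ℝ) : interp (fun _ => a) x = a := by
  unfold interp
  ring

theorem interp_int59 (φ : ℤ → ℝ) (m : ℤ) : interp φ m = φ m := by
  unfold interp
  rw [Int.floor_intCast]
  ring

theorem interp_code59 (φ : ℤ → ℝ) (C : ℕ) (x : ℝ) :
    interp (fun n => φ (cz C n)) x = interp φ (cv C x) := by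
  unfold cz cv
  by_cases h1 : C = 0
  · simp only [h1, if_true]
  · by_cases h2 : C = 1
    · simp only [h2, one_ne_zero, if_false, if_true]
      rw [interp_const59]
      have := interp_int59 φ 20
      push_cast at this
      exact this.symm
    · simp only [h1, h2, if_false]
      rw [← Pool.Agent.Helper56.NE.interp_rev φ ((C : ℤ) - 40) x]
      push_cast
      rfl

theorem interp_sum59 (l : List (ℕ × ℕ)) (x : ℝ) :
    interp (fun n => (l.map fun t => Pt t.2 (cz t.1 n)).sum) x =
      (l.map fun t => interp (Pt t.2) (cv t.1 x)).sum := by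
  induction l with
  | nil =>
    simp only [List.map_nil, List.sum_nil]
    exact interp_const59 0 x
  | cons t l ih =>
    simp only [List.map_cons, List.sum_cons]
    rw [interp_add59, ih, interp_code59]

theorem interp_tab59 (fl ll : List (ℕ × ℕ)) (s : ℕ) (μ : Bool) (x : ℝ) :
    interp (tab fl ll s μ) x = ((cpos s μ fl).map fun t => interp (Pt t.2) (cv t.1 x)).sum -
      ((cneg s fl).map fun t => interp (Pt t.2) (cv t.1 x)).sum + ((sa s ll : ℝ) - sb s ll) * x := by
  unfold tab
  rw [interp_add59, interp_sub59, interp_sum59, interp_sum59, interp_lin59]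

/-! ### The slots are smaller than `36` -/

theorem nth_mem59 {α : Type} (d : α) (l : List α) (k : ℕ) : nth d l k = d ∨ nth d l k ∈ l := by
  induction l generalizing k with
  | nil => exact Or.inl rfl
  | cons a l ih =>
    cases k with
    | zero => exact Or.inr (by rw [nth_zero]; exact List.mem_cons_self)
    | succ k =>
      rw [nth_succ]
      rcases ih k with h | h
      · exact Or.inl h
      · exact Or.inr (List.mem_cons_of_mem _ h)

theorem fr_lt59 (k : ℕ) : (fr k).hs < 36 ∧ (fr k).ls < 36 := by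
  have h : ∀ f ∈ frs, f.hs < 36 ∧ f.ls < 36 := by decide
  rcases nth_mem59 fr0 frs k with h1 | h1
  · unfold fr
    rw [h1]
    decide
  · exact h _ h1

theorem lr_lt59 (k : ℕ) : ∀ u ∈ (lr k).1, u.1 < 36 := by
  have h : ∀ f ∈ lrs, ∀ u ∈ f.1, u.1 < 36 := by decide
  rcases nth_mem59 ([], 0, 0) lrs k with h1 | h1
  · unfold lr
    rw [h1]
    intro u hu
    exact absurd hu (by simp)
  · exact h _ h1

/-! ### The function relations -/

theorem pos_sum59 (c : Cu) (fl : List (ℕ × ℕ)) :
    ∑ s ∈ range 36, ((cpos s (cpd c s) fl).map fun t => interp (Pt t.2) (cv t.1 (sl c s))).sum =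
      (fl.map fun t => interp (Pt t.2) (hiV c t.1)).sum := by
  induction fl with
  | nil =>
    have e : ∀ s μ, cpos s μ [] = [] := fun _ _ => rfl
    simp only [e, List.map_nil, List.sum_nil, sum_const_zero]
  | cons t fl ih =>
    have e : ∀ s, ((cpos s (cpd c s) (t :: fl)).map fun t => interp (Pt t.2) (cv t.1 (sl c s))).sum =
        (if (fr t.1).hs = s then interp (Pt t.2) (cv (hcode (cpd c s) t.1) (sl c s)) else 0) +
          ((cpos s (cpd c s) fl).map fun t => interp (Pt t.2) (cv t.1 (sl c s))).sum := by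
      intro s
      have e1 : cpos s (cpd c s) (t :: fl) = bif Nat.beq (fr t.1).hs s then
        (hcode (cpd c s) t.1, t.2) :: cpos s (cpd c s) fl else cpos s (cpd c s) fl := rfl
      rw [e1]
      by_cases h : (fr t.1).hs = s
      · have h2 : Nat.beq (fr t.1).hs s = true := by rw [h]; exact Nat.beq_refl s
        rw [h2, if_pos h]
        simp only [cond_true, List.map_cons, List.sum_cons]
      · have h2 : Nat.beq (fr t.1).hs s = false := by
          rw [← Bool.not_eq_true]
          exact fun h3 => h (Nat.eq_of_beq_eq_true h3)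
        rw [h2, if_neg h]
        simp only [cond_false, zero_add]
    simp only [e, sum_add_distrib, ih, List.map_cons, List.sum_cons]
    congr 1
    rw [sum_ite_eq, if_pos (mem_range.2 (fr_lt59 t.1).1)]
    rfl

theorem neg_sum59 (c : Cu) (fl : List (ℕ × ℕ)) :
    ∑ s ∈ range 36, ((cneg s fl).map fun t => interp (Pt t.2) (cv t.1 (sl c s))).sum =
      (fl.map fun t => interp (Pt t.2) (loV c t.1)).sum := by
  induction fl with
  | nil =>
    have e : ∀ s, cneg s [] = [] := fun _ => rfl
    simp only [e, List.map_nil, List.sum_nil, sum_const_zero]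
  | cons t fl ih =>
    have e : ∀ s, ((cneg s (t :: fl)).map fun t => interp (Pt t.2) (cv t.1 (sl c s))).sum =
        (if (fr t.1).ls = s then interp (Pt t.2) (cv (fr t.1).lc (sl c s)) else 0) +
          ((cneg s fl).map fun t => interp (Pt t.2) (cv t.1 (sl c s))).sum := by
      intro s
      have e1 : cneg s (t :: fl) = bif Nat.beq (fr t.1).ls s then
        ((fr t.1).lc, t.2) :: cneg s fl else cneg s fl := rfl
      rw [e1]
      by_cases h : (fr t.1).ls = s
      · have h2 : Nat.beq (fr t.1).ls s = true := by rw [h]; exact Nat.beq_refl s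
        rw [h2, if_pos h]
        simp only [cond_true, List.map_cons, List.sum_cons]
      · have h2 : Nat.beq (fr t.1).ls s = false := by
          rw [← Bool.not_eq_true]
          exact fun h3 => h (Nat.eq_of_beq_eq_true h3)
        rw [h2, if_neg h]
        simp only [cond_false, zero_add]
    simp only [e, sum_add_distrib, ih, List.map_cons, List.sum_cons]
    congr 1
    rw [sum_ite_eq, if_pos (mem_range.2 (fr_lt59 t.1).2)]
    rfl

/-! ### The linear relations -/

theorem ca_sum59 (x : ℕ → ℝ) (l : List (ℕ × ℕ × ℕ)) (hl : ∀ u ∈ l, u.1 < 36) :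
    ∑ s ∈ range 36, (ca s l : ℝ) * x s = (l.map fun u => (u.2.1 : ℝ) * x u.1).sum := by
  induction l with
  | nil =>
    have e : ∀ s, ca s [] = 0 := fun _ => rfl
    simp only [e, Nat.cast_zero, zero_mul, sum_const_zero, List.map_nil, List.sum_nil]
  | cons t l ih =>
    have e : ∀ s, (ca s (t :: l) : ℝ) * x s =
        (if t.1 = s then (t.2.1 : ℝ) * x s else 0) + (ca s l : ℝ) * x s := by
      intro s
      have e1 : ca s (t :: l) = bif Nat.beq t.1 s then Nat.add t.2.1 (ca s l) else ca s l := rfl
      rw [e1]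
      by_cases h : t.1 = s
      · have h2 : Nat.beq t.1 s = true := by rw [h]; exact Nat.beq_refl s
        rw [h2, if_pos h]
        simp only [cond_true, Nat.add_eq, Nat.cast_add]
        ring
      · have h2 : Nat.beq t.1 s = false := by
          rw [← Bool.not_eq_true]
          exact fun h3 => h (Nat.eq_of_beq_eq_true h3)
        rw [h2, if_neg h]
        simp only [cond_false, zero_add]
    simp only [e, sum_add_distrib, List.map_cons, List.sum_cons]
    rw [ih fun u hu => hl u (List.mem_cons_of_mem _ hu), sum_ite_eq,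
      if_pos (mem_range.2 (hl t List.mem_cons_self))]

theorem cb_sum59 (x : ℕ → ℝ) (l : List (ℕ × ℕ × ℕ)) (hl : ∀ u ∈ l, u.1 < 36) :
    ∑ s ∈ range 36, (cb s l : ℝ) * x s = (l.map fun u => (u.2.2 : ℝ) * x u.1).sum := by
  induction l with
  | nil =>
    have e : ∀ s, cb s [] = 0 := fun _ => rfl
    simp only [e, Nat.cast_zero, zero_mul, sum_const_zero, List.map_nil, List.sum_nil]
  | cons t l ih =>
    have e : ∀ s, (cb s (t :: l) : ℝ) * x s =
        (if t.1 = s then (t.2.2 : ℝ) * x s else 0) + (cb s l : ℝ) * x s := by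
      intro s
      have e1 : cb s (t :: l) = bif Nat.beq t.1 s then Nat.add t.2.2 (cb s l) else cb s l := rfl
      rw [e1]
      by_cases h : t.1 = s
      · have h2 : Nat.beq t.1 s = true := by rw [h]; exact Nat.beq_refl s
        rw [h2, if_pos h]
        simp only [cond_true, Nat.add_eq, Nat.cast_add]
        ring
      · have h2 : Nat.beq t.1 s = false := by
          rw [← Bool.not_eq_true]
          exact fun h3 => h (Nat.eq_of_beq_eq_true h3)
        rw [h2, if_neg h]
        simp only [cond_false, zero_add]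
    simp only [e, sum_add_distrib, List.map_cons, List.sum_cons]
    rw [ih fun u hu => hl u (List.mem_cons_of_mem _ hu), sum_ite_eq,
      if_pos (mem_range.2 (hl t List.mem_cons_self))]

theorem lin_sum59 (c : Cu) (ll : List (ℕ × ℕ)) :
    ∑ s ∈ range 36, ((sa s ll : ℝ) - sb s ll) * sl c s + ((ka ll : ℝ) - kb ll) =
      (ll.map fun t => (t.2 : ℝ) * LV c t.1).sum := by
  induction ll with
  | nil =>
    have e1 : ∀ s, sa s [] = 0 := fun _ => rfl
    have e2 : ∀ s, sb s [] = 0 := fun _ => rfl
    have e3 : ka [] = 0 := rfl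
    have e4 : kb [] = 0 := rfl
    simp only [e1, e2, e3, e4, Nat.cast_zero, sub_zero, zero_mul, sum_const_zero, List.map_nil,
      List.sum_nil, add_zero]
  | cons t ll ih =>
    have e1 : ∀ s, (sa s (t :: ll) : ℝ) = (t.2 : ℝ) * ca s (lr t.1).1 + sa s ll := by
      intro s
      have : sa s (t :: ll) = t.2 * ca s (lr t.1).1 + sa s ll := rfl
      rw [this]
      push_cast
      ring
    have e2 : ∀ s, (sb s (t :: ll) : ℝ) = (t.2 : ℝ) * cb s (lr t.1).1 + sb s ll := by
      intro s
      have : sb s (t :: ll) = t.2 * cb s (lr t.1).1 + sb s ll := rfl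
      rw [this]
      push_cast
      ring
    have e3 : (ka (t :: ll) : ℝ) = (t.2 : ℝ) * (lr t.1).2.1 + ka ll := by
      have : ka (t :: ll) = t.2 * (lr t.1).2.1 + ka ll := rfl
      rw [this]
      push_cast
      ring
    have e4 : (kb (t :: ll) : ℝ) = (t.2 : ℝ) * (lr t.1).2.2 + kb ll := by
      have : kb (t :: ll) = t.2 * (lr t.1).2.2 + kb ll := rfl
      rw [this]
      push_cast
      ring
    have e5 : ∀ s, ((sa s (t :: ll) : ℝ) - sb s (t :: ll)) * sl c s =
        (t.2 : ℝ) * ((ca s (lr t.1).1 : ℝ) * sl c s - (cb s (lr t.1).1 : ℝ) * sl c s) +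
          ((sa s ll : ℝ) - sb s ll) * sl c s := by
      intro s
      rw [e1, e2]
      ring
    have e6 : LV c t.1 = ((lr t.1).1.map fun u => (u.2.1 : ℝ) * sl c u.1).sum -
        ((lr t.1).1.map fun u => (u.2.2 : ℝ) * sl c u.1).sum + (((lr t.1).2.1 : ℝ) - (lr t.1).2.2) := by
      unfold LV
      congr 1
      generalize (lr t.1).1 = l
      induction l with
      | nil => simp only [List.map_nil, List.sum_nil, sub_zero]
      | cons a l ih =>
        simp only [List.map_cons, List.sum_cons]
        rw [ih]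
        ring
    simp only [e5, sum_add_distrib, List.map_cons, List.sum_cons]
    rw [← mul_sum, sum_sub_distrib, ca_sum59 (sl c) _ (lr_lt59 t.1),
      cb_sum59 (sl c) _ (lr_lt59 t.1), e3, e4, ← ih, e6]
    ring

/-- **(SUM)** -/
theorem sum_prices (fl ll : List (ℕ × ℕ)) (c : Cu) :
    ∑ s ∈ range 36, interp (tab fl ll s (cpd c s)) (sl c s) + ((ka ll : ℝ) - kb ll) =
      (fl.map fun t => interp (Pt t.2) (hiV c t.1) - interp (Pt t.2) (loV c t.1)).sum +
        (ll.map fun t => (t.2 : ℝ) * LV c t.1).sum := by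
  simp only [interp_tab59, sum_add_distrib, sum_sub_distrib]
  rw [pos_sum59, neg_sum59, add_assoc, lin_sum59]
  congr 1
  induction fl with
  | nil => simp only [List.map_nil, List.sum_nil, sub_zero]
  | cons a l ih =>
    simp only [List.map_cons, List.sum_cons]
    rw [← ih]
    ring

/-! ### The prices are not negative -/

theorem lk_mono59 {p : ℕ} (h : mono p = true) : ∀ {i j : ℕ}, i ≤ j → j ≤ 60 → lk p i ≤ lk p j := by
  have key : ∀ m : ℕ, (Nat.rec (motive := fun _ => Bool) true
      (fun n ih => Nat.ble (lk p n) (lk p (Nat.succ n)) && ih) m) = true →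
      ∀ n < m, lk p n ≤ lk p (n + 1) := by
    intro m
    induction m with
    | zero =>
      intro _ n hn
      omega
    | succ m ih =>
      intro h n hn
      simp only [Bool.and_eq_true] at h
      rcases Nat.lt_succ_iff_lt_or_eq.1 hn with h1 | h1
      · exact ih h.2 n h1
      · rw [h1]
        exact Nat.le_of_ble_eq_true h.1
  have h60 := key 60 h
  intro i j hij hj
  induction j with
  | zero =>
    have : i = 0 := by omega
    rw [this]
  | succ j ih =>
    rcases Nat.lt_or_ge j i with h1 | h1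
    · have : i = j + 1 := by omega
      rw [this]
    · exact (ih h1 (by omega)).trans (h60 j (by omega))

theorem Pt_mono59 {p : ℕ} (h : mono p = true) : Monotone (Pt p) := by
  intro m n hmn
  unfold Pt
  exact_mod_cast lk_mono59 h (by omega) (by omega)

theorem interp_mono59 {φ : ℤ → ℝ} (h : Monotone φ) {x y : ℝ} (hxy : x ≤ y) :
    interp φ x ≤ interp φ y := by
  have h1 : ∀ z : ℝ, φ ⌊z⌋ ≤ interp φ z := by
    intro z
    unfold interp
    have h2 : 0 ≤ z - ⌊z⌋ := by linarith [Int.floor_le z]
    have h3 : 0 ≤ φ (⌊z⌋ + 1) - φ ⌊z⌋ := by linarith [h (show ⌊z⌋ ≤ ⌊z⌋ + 1 by omega)]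
    have := mul_nonneg h2 h3
    linarith
  have h2 : ∀ z : ℝ, interp φ z ≤ φ (⌊z⌋ + 1) := by
    intro z
    unfold interp
    have h2 : z - ⌊z⌋ ≤ 1 := by linarith [Int.lt_floor_add_one z]
    have h3 : 0 ≤ φ (⌊z⌋ + 1) - φ ⌊z⌋ := by linarith [h (show ⌊z⌋ ≤ ⌊z⌋ + 1 by omega)]
    have := mul_le_mul_of_nonneg_right h2 h3
    linarith
  rcases eq_or_lt_of_le (Int.floor_le_floor hxy) with h3 | h3
  · unfold interp
    rw [← h3]
    have h4 : 0 ≤ φ (⌊x⌋ + 1) - φ ⌊x⌋ := by linarith [h (show ⌊x⌋ ≤ ⌊x⌋ + 1 by omega)]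
    have := mul_le_mul_of_nonneg_right (sub_le_sub_right hxy (⌊x⌋ : ℝ)) h4
    linarith
  · exact (h2 x).trans ((h (show ⌊x⌋ + 1 ≤ ⌊y⌋ by omega)).trans (h1 y))

/-- **The prices are not negative.** -/
theorem prices_nonneg (fl ll : List (ℕ × ℕ)) (c : Cu) (hm : ∀ t ∈ fl, mono t.2 = true)
    (hf : ∀ t ∈ fl, FHold c t.1) (hl : ∀ t ∈ ll, 0 ≤ LV c t.1) :
    0 ≤ ∑ s ∈ range 36, interp (tab fl ll s (cpd c s)) (sl c s) + ((ka ll : ℝ) - kb ll) := by
  rw [sum_prices]
  refine add_nonneg (List.sum_nonneg ?_) (List.sum_nonneg ?_)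
  · intro x hx
    obtain ⟨t, ht, rfl⟩ := List.mem_map.1 hx
    exact sub_nonneg.2 (interp_mono59 (Pt_mono59 (hm t ht)) (hf t ht))
  · intro x hx
    obtain ⟨t, ht, rfl⟩ := List.mem_map.1 hx
    exact mul_nonneg (Nat.cast_nonneg _) (hl t ht)

end Pool.Agent.Helper59.NE
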