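import Pool.Agent.Helper59.NE.ClassBlk
import Pool.Agent.Helper59.NE.Sum
import Pool.Agent.Helper59.TS.RowVal
import Pool.Agent.Helper62.NE.RowCheck

/-!
# `TwoLowNE`: the leaves
-/

set_option autoImplicit false

namespace Pool.Agent.Helper59.NE

open Pool.Agent.Helper95.TS Pool.Agent.Helper90.TS Pool.Agent.Helper62.NE Pool.Agent.Helper56.NE
  Pool.Agent.Helper51.NE Pool.Agent.Helper53.NE Finset

/-- the certificate of a leaf -/
structure Leaf where
  /-- the atoms of the path -/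
  ats : List Atom
  /-- the function relations `(k, packed table)` -/
  fl : List (ℕ × ℕ)
  /-- the linear relations `(k, multiplier)` -/
  ll : List (ℕ × ℕ)
  /-- the main cells of the classes `0`, `1`: `1` absent, `2` present, else both -/
  s0 : ℕ
  s1 : ℕ
  /-- the bounds of the classes, plus `3 * 16809216` -/
  C0 : ℕ
  C1 : ℕ
  /-- the bounds of the rows, plus `4194304` -/
  M2 : ℕ
  M3 : ℕ
  /-- `96000 α`, `4800 β`, the bounds of the three cells beside the main cell, plus `16809216` -/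
  m0 : ℕ × ℕ × ℕ × ℕ × ℕ
  m1 : ℕ × ℕ × ℕ × ℕ × ℕ

/-- the atom follows from the path -/
def hasA (ats : List Atom) (b : Atom) : Bool := ats.any fun a => imp a b

theorem hasA_ok {c : Cu} {ats : List Atom} {b : Atom} (h : hasA ats b = true) (hs : Hs SS c ats) :
    b.Holds SS c := by
  obtain ⟨a, ha, hab⟩ := List.any_eq_true.1 h
  exact imp_ok hab (hs.mem a ha)

/-- lower index of the slot `s` -/
def bl (a : List Atom) (s : ℕ) : ℕ := loB s (lo0 s) a

/-- upper index of the slot `s` -/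
def bh (a : List Atom) (s : ℕ) : ℕ := hiB s (hi0 s) a

theorem b_ok {c : Cu} (h : c.Ok) {a : List Atom} (hs : Hs SS c a) :
    ∀ s < 36, (bl a s : ℝ) - 20 ≤ sl c s ∧ sl c s ≤ (bh a s : ℝ) - 20 := fun s k =>
  ⟨loB_ok (S := SS) hs (box0 h s k).1, hiB_ok (S := SS) hs (box0 h s k).2⟩

/-! ### rows -/

/-- the check of a row with the slots `s .. s + 5` -/
def rowL (a : List Atom) (fl ll : List (ℕ × ℕ)) (M s : ℕ) : Bool :=
  rowOK M (bl a s) (bh a s) (bl a (s + 1)) (bh a (s + 1)) (bl a (s + 2)) (bh a (s + 2))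
    (bl a (s + 3)) (bh a (s + 3)) (bl a (s + 4)) (bh a (s + 4)) (bl a (s + 5)) (bh a (s + 5))
    (tl fl ll s false) (tl fl ll (s + 1) false) (tl fl ll (s + 2) false) (tl fl ll (s + 3) false)
    (tl fl ll (s + 4) false) (tl fl ll (s + 5) false)

theorem fr_cap (k : ℕ) : (fr k).hs < 12 → (fr k).cap = false := by
  have key : ∀ f ∈ frs, f.hs < 12 → f.cap = false := by decide
  rcases nth_mem59 fr0 frs k with h | h
  · intro _
    unfold fr
    rw [h]
    rfl
  · exact key _ h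

theorem cpos_row {s : ℕ} (hs : s < 12) (μ : Bool) (fl : List (ℕ × ℕ)) :
    cpos s μ fl = cpos s false fl := by
  induction fl with
  | nil => rfl
  | cons t l ih =>
    show (bif Nat.beq (fr t.1).hs s then (hcode μ t.1, t.2) :: cpos s μ l else cpos s μ l) =
      (bif Nat.beq (fr t.1).hs s then (hcode false t.1, t.2) :: cpos s false l else cpos s false l)
    rw [ih]
    cases e : Nat.beq (fr t.1).hs s with
    | false => rfl
    | true =>
      have e' := Nat.eq_of_beq_eq_true e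
      have k := fr_cap t.1 (by omega)
      unfold hcode
      rw [k]
      rfl

theorem tl_row {s : ℕ} (hs : s < 12) (μ : Bool) (fl ll : List (ℕ × ℕ)) :
    tl fl ll s μ = tl fl ll s false := by
  unfold tl
  rw [cpos_row hs]

theorem px_row {c : Cu} {fl ll : List (ℕ × ℕ)} {s : ℕ} (hs : s < 12) :
    px c (tl fl ll) s = interp (ltab (tl fl ll s false)) (sl c s) := by
  unfold px
  rw [tl_row hs]

/-- **The block of a row.** -/
theorem row_blk {c : Cu} (h : c.Ok) {r j k l : Fin 4} (hr : r = 2 ∨ r = 3)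
    (hn : [r, j, k, l].Nodup) {a : List Atom} {fl ll : List (ℕ × ℕ)} {M s : ℕ}
    (hc : rowL a fl ll M s = true) (hs : Hs SS c a) (h0 : s + 5 < 12)
    (e0 : sl c s = c.v r j) (e1 : sl c (s + 1) = c.v r k) (e2 : sl c (s + 2) = c.v r l)
    (e3 : sl c (s + 3) = c.v r j + c.v r k) (e4 : sl c (s + 4) = c.v r k + c.v r l)
    (e5 : sl c (s + 5) = 20 - c.e r) :
    96000 * c.VR r + (px c (tl fl ll) s + px c (tl fl ll) (s + 1) + px c (tl fl ll) (s + 2)
      + px c (tl fl ll) (s + 3) + px c (tl fl ll) (s + 4) + px c (tl fl ll) (s + 5)) ≤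
      ((M : ℝ) - 4194304) + 94 := by
  have hb := b_ok h hs
  have n : j ≠ r ∧ k ≠ r ∧ l ≠ r := by
    clear * - hn; revert hn; revert r j k l; decide
  have g := Pool.Agent.Helper59.TS.val_of_cu (h.gr r j k l hr hn)
  have er := h.e0 r hr
  have vs := h.vs r j k l hr hn
  have h1 := h.hi r j hr n.1
  have h2 := h.hi r k hr n.2.1
  have h3 := h.hi r l hr n.2.2
  have es : c.v r j + c.v r k + c.v r l = 20 - c.e r := vs
  have k := row_block hc (v1 := c.v r j) (v2 := c.v r k) (v3 := c.v r l)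
    (by rw [← e0]; exact (hb _ (by omega)).1) (by rw [← e0]; exact (hb _ (by omega)).2)
    (by rw [← e1]; exact (hb _ (by omega)).1) (by rw [← e1]; exact (hb _ (by omega)).2)
    (by rw [← e2]; exact (hb _ (by omega)).1) (by rw [← e2]; exact (hb _ (by omega)).2)
    (by rw [← e3]; exact (hb _ (by omega)).1) (by rw [← e3]; exact (hb _ (by omega)).2)
    (by rw [← e4]; exact (hb _ (by omega)).1) (by rw [← e4]; exact (hb _ (by omega)).2)
    (by rw [es, ← e5]; exact (hb _ (by omega)).1)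
    (by rw [es, ← e5]; exact (hb _ (by omega)).2)
    (by linarith) (by linarith) (by linarith) (by linarith) (by linarith) (by linarith)
    (by linarith)
  rw [es] at k
  rw [px_row (by omega), px_row (by omega), px_row (by omega), px_row (by omega),
    px_row (by omega), px_row (by omega), e0, e1, e2, e3, e4, e5]
  linarith

/-! ### classes -/

/-- the cell with the slots `sw sX sY sD` -/
def cellL (a : List Atom) (fl ll : List (ℕ × ℕ)) (sw sX sY sD : ℕ) : CellD :=
  mkCell (bl a) (bh a) (tl fl ll) sw sX sY sD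

/-- the check of the main alternative -/
def manL (C : ℕ) (m : ℕ × ℕ × ℕ × ℕ × ℕ) (d0 d1 d2 : CellD) : Bool :=
  Bool.and (majOK m.1 m.2.1) (Bool.and (mainOK m.2.2.1 m.2.2.2.1 m.2.2.2.2 m.2.1 d0 d1 d2)
    (Nat.ble (Nat.add (Nat.add m.1 m.2.2.1) (Nat.add m.2.2.2.1 m.2.2.2.2)) C))

theorem manL_ok {C : ℕ} {m : ℕ × ℕ × ℕ × ℕ × ℕ} {d0 d1 d2 : CellD} (h : manL C m d0 d1 d2 = true) :
    MainC C m d0 d1 d2 := by
  unfold manL at h
  rw [Bool.and_eq_true, Bool.and_eq_true] at h
  have k := Nat.le_of_ble_eq_true h.2.2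
  have k' : m.1 + m.2.2.1 + (m.2.2.2.1 + m.2.2.2.2) ≤ C := k
  exact ⟨h.1, h.2.1, by omega⟩

/-- the check of the class `i`, `s` the state of its main cell -/
def clsL (a : List Atom) (i s C : ℕ) (m : ℕ × ℕ × ℕ × ℕ × ℕ) (d0 d1 d2 : CellD) : Bool :=
  bif Nat.beq s 1 then Bool.and (hasA a (.pr 2 i)) (classOK C d0 d1 d2) else
  bif Nat.beq s 2 then Bool.and (hasA a (.pr 3 i)) (manL C m d0 d1 d2)
  else Bool.and (classOK C d0 d1 d2) (manL C m d0 d1 d2)

theorem clsL_ok {a : List Atom} {i s C : ℕ} {m : ℕ × ℕ × ℕ × ℕ × ℕ} {d0 d1 d2 : CellD}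
    (h : clsL a i s C m d0 d1 d2 = true) {c : Cu} (hs : Hs SS c a) {x : ℝ}
    (e2 : QQ c 2 i → x = 0) (e3 : QQ c 3 i → x ≠ 0) :
    (x = 0 → classOK C d0 d1 d2 = true) ∧ (x ≠ 0 → MainC C m d0 d1 d2) := by
  unfold clsL at h
  cases b1 : Nat.beq s 1 with
  | true =>
    rw [b1, cond_true, Bool.and_eq_true] at h
    have k : x = 0 := e2 (hasA_ok h.1 hs)
    exact ⟨fun _ => h.2, fun hx => absurd k hx⟩
  | false =>
    rw [b1, cond_false] at h
    cases b2 : Nat.beq s 2 with
    | true =>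
      rw [b2, cond_true, Bool.and_eq_true] at h
      have k : x ≠ 0 := e3 (hasA_ok h.1 hs)
      exact ⟨fun hx => absurd hx k, fun _ => manL_ok h.2⟩
    | false =>
      rw [b2, cond_false, Bool.and_eq_true] at h
      exact ⟨fun _ => h.1, fun _ => manL_ok h.2⟩

/-! ### the leaf -/

/-- the relations are on the path, the tables are nondecreasing -/
def Leaf.rel (L : Leaf) : Bool :=
  Bool.and (L.fl.all fun t => Bool.and (mono t.2) (hasA L.ats (.pr 0 t.1)))
    (L.ll.all fun t => hasA L.ats (.pr 1 t.1))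

/-- the sum of the bounds -/
def Leaf.sum (L : Leaf) : Bool :=
  Nat.ble (Nat.add (Nat.add (Nat.add L.C0 L.C1) (Nat.add L.M2 L.M3)) (Nat.add (ka L.ll) 716))
    (Nat.add 109538144 (kb L.ll))

/-- the class `0` -/
def Leaf.c0 (L : Leaf) : Bool :=
  clsL L.ats 0 L.s0 L.C0 L.m0 (cellL L.ats L.fl L.ll 12 14 13 15) (cellL L.ats L.fl L.ll 16 17 18 19)
    (cellL L.ats L.fl L.ll 20 22 21 23)

/-- the class `1` -/
def Leaf.c1 (L : Leaf) : Bool :=
  clsL L.ats 1 L.s1 L.C1 L.m1 (cellL L.ats L.fl L.ll 24 26 25 27) (cellL L.ats L.fl L.ll 28 29 30 31)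
    (cellL L.ats L.fl L.ll 32 34 33 35)

/-- **The check of a leaf.** -/
def Leaf.ok (L : Leaf) : Bool :=
  Bool.and (Bool.and (Bool.and L.rel L.sum) (Bool.and L.c0 L.c1))
    (Bool.and (rowL L.ats L.fl L.ll L.M2 0) (rowL L.ats L.fl L.ll L.M3 6))

/-- **The check of a leaf is sound.** -/
theorem leaf_ok {L : Leaf} (hk : L.ok = true) (c : Cu) (h : c.Ok) (hs : Hs SS c L.ats) :
    c.val ≤ 613 / 200 := by
  unfold Leaf.ok at hk
  rw [Bool.and_eq_true, Bool.and_eq_true, Bool.and_eq_true, Bool.and_eq_true,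
    Bool.and_eq_true] at hk
  obtain ⟨⟨⟨kr, ks⟩, k0, k1⟩, k2, k3⟩ := hk
  unfold Leaf.rel at kr
  rw [Bool.and_eq_true, List.all_eq_true, List.all_eq_true] at kr
  have hm : ∀ t ∈ L.fl, mono t.2 = true := fun t ht => by
    have := kr.1 t ht
    rw [Bool.and_eq_true] at this
    exact this.1
  have hf : ∀ t ∈ L.fl, FHold c t.1 := fun t ht => by
    have := kr.1 t ht
    rw [Bool.and_eq_true] at this
    exact hasA_ok this.2 hs
  have hl : ∀ t ∈ L.ll, 0 ≤ LV c t.1 := fun t ht => hasA_ok (kr.2 t ht) hs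
  have hb := b_ok h hs
  obtain ⟨a0, a1⟩ := clsL_ok k0 hs (x := c.mf 0) (fun q => q) (fun q => q)
  obtain ⟨a2, a3⟩ := clsL_ok k1 hs (x := c.mf 1) (fun q => q) (fun q => q)
  have B0 := blk0 hb h a0 a1
  have B1 := blk1 hb h a2 a3
  have R2 := row_blk h (r := 2) (j := 1) (k := 3) (l := 0) (Or.inl rfl) (by decide) k2 hs
    (by norm_num) rfl rfl rfl rfl rfl rfl
  have R3 := row_blk h (r := 3) (j := 0) (k := 2) (l := 1) (Or.inr rfl) (by decide) k3 hs
    (by norm_num) rfl rfl rfl rfl rfl rfl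
  have P := prices_nonneg L.fl L.ll c hm hf hl
  have Q : ∑ s ∈ range 36, interp (tab L.fl L.ll s (cpd c s)) (sl c s) ≤
      ∑ s ∈ range 36, px c (tl L.fl L.ll) s := by
    refine sum_le_sum fun s hs => ?_
    have k := box40 h s (mem_range.1 hs)
    exact interp_tab_le _ _ _ _ k.1 k.2
  simp only [sum_range_succ, sum_range_zero, zero_add] at P Q
  have e : (L.C0 : ℝ) + L.C1 + (L.M2 + L.M3) + (ka L.ll + 716) ≤ 109538144 + kb L.ll := by
    have : L.C0 + L.C1 + (L.M2 + L.M3) + (ka L.ll + 716) ≤ 109538144 + kb L.ll :=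
      Nat.le_of_ble_eq_true ks
    exact_mod_cast this
  unfold Cu.val
  linarith

end Pool.Agent.Helper59.NE
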