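import Pool.Agent.Helper59.NE.ClassOf
import Pool.Agent.Helper53.NE.Nodes
import Pool.Agent.Helper95.TS.BoxB

/-!
# The cells of the class check of a leaf

`mkCell lo hi t sw sX sY sD`: the slots of the cell, `lo s`, `hi s` the box of the slot `s` (shifted by `20`), `t s μ`
the table of the slot in the capped (`μ = true`) and in the other variants.
-/

set_option autoImplicit false

namespace Pool.Agent.Helper59.NE

open Pool.Agent.Helper95.TS Pool.Agent.Helper90.TS Pool.Agent.Helper62.NE Pool.Agent.Helper56.NE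
  Pool.Agent.Helper51.NE Pool.Agent.Helper53.NE

/-- the minimum -/
def mn (a b : ℕ) : ℕ := Nat.sub a (Nat.sub a b)

/-- the maximum -/
def mx (a b : ℕ) : ℕ := Nat.add a (Nat.sub b a)

/-- the capped variant -/
def capV (lo hi : ℕ → ℕ) (t : ℕ → Bool → List ℕ) (sw sX sY sD : ℕ) : VarP :=
  ⟨Nat.sub (lo sw) 20, Nat.sub (hi sw) 20, Nat.sub (lo sX) 20, Nat.sub (hi sX) 20,
    Nat.sub (lo sY) 20, Nat.sub (hi sY) 20, Nat.sub (lo sD) 20, mn (Nat.sub (hi sD) 20) 11,
    t sw true, t sX true, t sY true, t sD true⟩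

/-- the free variant -/
def freeV (lo hi : ℕ → ℕ) (t : ℕ → Bool → List ℕ) (sw sX sY sD : ℕ) : VarP :=
  ⟨Nat.sub (lo sw) 20, Nat.sub (hi sw) 20, Nat.sub (lo sX) 20, Nat.sub (hi sX) 20,
    Nat.sub (lo sY) 20, Nat.sub (hi sY) 20, mx (Nat.sub (lo sD) 20) 11, Nat.sub (hi sD) 20,
    t sw false, t sX false, t sY false, t sD false⟩

/-- **The cell of the check.** -/
def mkCell (lo hi : ℕ → ℕ) (t : ℕ → Bool → List ℕ) (sw sX sY sD : ℕ) : CellD :=
  ⟨bif Bool.and (Bool.and (Nat.ble (lo sw) 0) (Nat.ble (lo sX) 20))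
      (Bool.and (Nat.ble (lo sY) 20) (Nat.ble 60 (hi sD)))
    then some (t sw false, t sX false, t sY false, t sD false) else none,
    bif Nat.ble 20 (hi sw) then
      (bif Nat.ble (lo sD) 31 then
        (bif Nat.ble 31 (hi sD) then [capV lo hi t sw sX sY sD, freeV lo hi t sw sX sY sD]
          else [capV lo hi t sw sX sY sD])
        else (bif Nat.ble 31 (hi sD) then [freeV lo hi t sw sX sY sD] else []))
      else []⟩

theorem mn_eq (a b : ℕ) : mn a b = min a b := by
  unfold mn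
  simp only [Nat.sub_eq]
  omega

theorem mx_eq (a b : ℕ) : mx a b = max a b := by
  unfold mx
  simp only [Nat.sub_eq, Nat.add_eq]
  omega

/-- the box of the cell -/
structure Bx (r : RC) (lo hi : ℕ → ℕ) (sw sX sY sD : ℕ) : Prop where
  w1 : (lo sw : ℝ) - 20 ≤ r.w
  w2 : r.w ≤ (hi sw : ℝ) - 20
  x1 : (lo sX : ℝ) - 20 ≤ r.X
  x2 : r.X ≤ (hi sX : ℝ) - 20
  y1 : (lo sY : ℝ) - 20 ≤ r.Y
  y2 : r.Y ≤ (hi sY : ℝ) - 20
  d1 : (lo sD : ℝ) - 20 ≤ r.D
  d2 : r.D ≤ (hi sD : ℝ) - 20

theorem sts_mk {r : RC} (hr : Ab0 r ∨ Pr0 r) {lo hi : ℕ → ℕ} {t : ℕ → Bool → List ℕ}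
    {sw sX sY sD : ℕ} (hb : Bx r lo hi sw sX sY sD) {μ : Bool} (h1 : r.D < 11 → μ = true)
    (h2 : ¬ r.D < 11 → μ = false) :
    Sts r (mkCell lo hi t sw sX sY sD) (t sw μ) (t sX μ) (t sY μ) (t sD μ) := by
  intro g hg hs
  rcases hr with k | k
  · have e := k.near hg
    have m := h2 (by rw [k.D]; norm_num)
    subst m
    left
    refine ⟨(t sw false, t sX false, t sY false, t sD false), ?_, e, ?_⟩
    · have b1 : lo sw ≤ 0 := by
        have := hb.w1
        rw [k.w] at this
        have : (lo sw : ℝ) ≤ ((0 : ℕ) : ℝ) := by push_cast; linarith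
        exact_mod_cast this
      have b2 : lo sX ≤ 20 := by
        have := hb.x1
        rw [k.X] at this
        have : (lo sX : ℝ) ≤ ((20 : ℕ) : ℝ) := by push_cast; linarith
        exact_mod_cast this
      have b3 : lo sY ≤ 20 := by
        have := hb.y1
        rw [k.Y] at this
        have : (lo sY : ℝ) ≤ ((20 : ℕ) : ℝ) := by push_cast; linarith
        exact_mod_cast this
      have b4 : 60 ≤ hi sD := by
        have := hb.d2
        rw [k.D] at this
        have : ((60 : ℕ) : ℝ) ≤ (hi sD : ℝ) := by push_cast; linarith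
        exact_mod_cast this
      unfold mkCell
      simp only [Nat.ble_eq_true_of_le b1, Nat.ble_eq_true_of_le b2, Nat.ble_eq_true_of_le b3,
        Nat.ble_eq_true_of_le b4, Bool.and_self, cond_true]
    · rw [e]
      have v0 : (⟨-20, 0, 0, 40⟩ : GC).vol = 0 := by
        unfold GC.vol
        rw [if_pos (by norm_num)]
      unfold gv
      rw [v0]
      ring
  · right
    have b0 : 20 ≤ hi sw := by
      have := hb.w2
      have := k.w0
      have : ((20 : ℕ) : ℝ) ≤ (hi sw : ℝ) := by push_cast; linarith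
      exact_mod_cast this
    have c1 := sub_le hb.w1 k.w0.le
    have c2 := le_sub hb.w2
    have c3 := sub_le hb.x1 k.X0.le
    have c4 := le_sub hb.x2
    have c5 := sub_le hb.y1 k.Y0.le
    have c6 := le_sub hb.y2
    have c7 := sub_le hb.d1 k.D0
    have c8 := le_sub hb.d2
    by_cases hd : r.D < 11
    · have m := h1 hd
      subst m
      have b1 : lo sD ≤ 31 := by
        have := hb.d1
        have : (lo sD : ℝ) ≤ ((31 : ℕ) : ℝ) := by push_cast; linarith
        exact_mod_cast this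
      refine ⟨capV lo hi t sw sX sY sD, ?_, k.in_var hg hs c1 c2 c3 c4 c5 c6 c7 ?_⟩
      · unfold mkCell
        simp only [Nat.ble_eq_true_of_le b0, Nat.ble_eq_true_of_le b1, cond_true]
        cases Nat.ble 31 (hi sD) <;> simp
      · show r.D ≤ ((mn (Nat.sub (hi sD) 20) 11 : ℕ) : ℝ)
        rw [mn_eq]
        push_cast
        exact le_min c8 hd.le
    · have m := h2 hd
      subst m
      have b1 : 31 ≤ hi sD := by
        have := hb.d2
        have : ((31 : ℕ) : ℝ) ≤ (hi sD : ℝ) := by push_cast; linarith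
        exact_mod_cast this
      refine ⟨freeV lo hi t sw sX sY sD, ?_, k.in_var hg hs c1 c2 c3 c4 c5 c6 ?_ c8⟩
      · unfold mkCell
        simp only [Nat.ble_eq_true_of_le b0, Nat.ble_eq_true_of_le b1, cond_true]
        cases Nat.ble (lo sD) 31 <;> simp
      · show ((mx (Nat.sub (lo sD) 20) 11 : ℕ) : ℝ) ≤ r.D
        rw [mx_eq]
        push_cast
        exact max_le c7 (not_lt.1 hd)

end Pool.Agent.Helper59.NE
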