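import Pool.Agent.Helper59.NE.A0
import Pool.Agent.Helper59.NE.A1
import Pool.Agent.Helper59.NE.A2
import Pool.Agent.Helper59.NE.A3
import Pool.Agent.Helper59.NE.A4
import Pool.Agent.Helper59.NE.A5
import Pool.Agent.Helper59.NE.A6
import Pool.Agent.Helper59.NE.A7
import Pool.Agent.Helper59.NE.A8
import Pool.Agent.Helper59.NE.B0
import Pool.Agent.Helper59.NE.B1
import Pool.Agent.Helper59.NE.B2
import Pool.Agent.Helper59.NE.B3
import Pool.Agent.Helper59.NE.B4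
import Pool.Agent.Helper59.NE.B5
import Pool.Agent.Helper59.NE.B6
import Pool.Agent.Helper59.NE.B7

/-!
# `TwoLowNE`: the two trees

`tA`: the witness `(0; 1)`, 133 leaves; `tB`: the witness `(0; 3)`, 119 leaves.
-/

set_option autoImplicit false
set_option maxRecDepth 1000000

namespace Pool.Agent.Helper59.NE

open Pool.Agent.Helper53.NE Pool.Agent.Helper90.TS Pool.Agent.Helper62.NE

/-- all leaves are checked -/
def AllOk : List Leaf → Prop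
  | [] => True
  | q :: l => q.ok = true ∧ AllOk l

theorem AllOk.nth {d : Leaf} : ∀ {l : List Leaf}, AllOk l → ∀ n < l.length, (nth d l n).ok = true
  | [], _, n, h => absurd h (Nat.not_lt_zero n)
  | _ :: _, h, 0, _ => h.1
  | q :: l, h, n + 1, hn => by
    rw [nth_succ]
    exact AllOk.nth h.2 n (by simpa using hn)

/-- the tree of the pair `P1` -/
def tA1 : Tr := (.dis 3 (.alt (.dis 8 (.alt (.dis 5 (.alt (.dis 15 (.alt (.dis 7 (.alt (.thr 16 10 (.dis 10 (.alt (.thr 28 10 (.leaf 0) (.leaf 1)) (.alt (.thr 20 10 (.leaf 2) (.leaf 3)) .nil))) (.dis 6 (.alt (.dis 16 (.alt (.thr 17 31 (.dis 10 (.alt (.thr 32 10 (.leaf 4) (.thr 35 29 (.leaf 5) (.leaf 6))) (.alt (.thr 12 31 (.leaf 7) (.thr 20 10 (.leaf 8) (.leaf 9))) .nil))) (.dis 9 (.alt (.dis 10 (.alt (.thr 16 33 (.thr 32 10 (.leaf 10) (.thr 26 32 (.thr 24 10 (.leaf 11) (.thr 28 10 (.leaf 12) (.leaf 13))) (.leaf 14)))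 (.leaf 15)) (.alt (.thr 20 10 (.thr 26 44 (.thr 32 10 (.leaf 16) (.thr 28 10 (.leaf 17) (.leaf 18))) (.thr 32 10 (.leaf 19) (.thr 24 10 (.leaf 20) (.thr 6 21 (.leaf 21) (.leaf 22))))) (.leaf 23)) .nil))) (.alt (.thr 0 23 (.thr 6 21 (.thr 18 30 (.dis 10 (.alt (.leaf 24) (.alt (.leaf 25) .nil))) (.thr 20 10 (.leaf 26) (.dis 10 (.alt (.leaf 27) (.alt (.leaf 28) .nil))))) (.thr 18 31 (.thr 32 10 (.leaf 29) (.thr 24 10 (.leaf 30) (.thr 20 10 (.thr 28 10 (.leaf 31) (.dis 12 (.alt (.leaf 32) (.alt (.leaf 33) .nil)))) (.leaf 34)))) (.thr 32 10 (.leaf 35) (.thr 19 21 (.thr 24 10 (.leaf 36) (.thr 20 10 (.thr 28 10 (.leaf 37) (.dis 12 (.alt (.leaf 38) (.alt (.leaf 39) .nil)))) (.leaf 40))) (.thr 24 10 (.leaf 41) (.thr 20 10 (.thr 28 10 (.leaf 42) (.dis 12 (.alt (.leaf 43) (.alt (.leaf 44) .nil)))) (.leaf 45))))))) (.dis 10 (.alt (.thr 32 10 (.leaf 46) (.leaf 47)) (.alt (.thr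 32 10 (.leaf 48) (.leaf 49)) .nil)))) .nil)))) (.alt (.dis 9 (.alt (.thr 17 29 (.dis 10 (.alt (.leaf 50) (.alt (.leaf 51) .nil))) (.dis 10 (.alt (.leaf 52) (.alt (.leaf 53) .nil)))) (.alt (.dis 10 (.alt (.thr 32 10 (.leaf 54) (.thr 28 27 (.leaf 55) (.leaf 56))) (.alt (.thr 20 10 (.leaf 57) (.leaf 58)) .nil))) .nil))) .nil))) (.alt (.dis 16 (.alt (.thr 32 10 (.dis 9 (.alt (.leaf 59) (.alt (.leaf 60) .nil))) (.thr 0 21 (.dis 9 (.alt (.dis 10 (.alt (.thr 20 10 (.leaf 61) (.leaf 62)) (.alt (.thr 20 10 (.leaf 63) (.leaf 64)) .nil))) (.alt (.dis 10 (.alt (.thr 20 10 (.leaf 65) (.leaf 66)) (.alt (.thr 20 10 (.leaf 67) (.leaf 68)) .nil))) .nil))) (.dis 10 (.alt (.thr 28 10 (.leaf 69) (.thr 13 42 (.leaf 70) (.leaf 71))) (.alt (.thr 33 31 (.leaf 72) (.thr 28 10 (.leaf 73) (.leaf 74))) .nil))))) (.alt (.dis 9 (.alt (.leaf 75) (.alt (.leaf 76) .nil))) .nil))) .nil)))) (.alt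 (.thr 20 10 (.dis 9 (.alt (.leaf 77) (.alt (.thr 32 10 (.leaf 78) (.thr 16 10 (.leaf 79) (.dis 12 (.alt (.leaf 80) (.alt (.leaf 81) .nil))))) .nil))) (.dis 10 (.alt (.thr 21 31 (.dis 9 (.alt (.leaf 82) (.alt (.leaf 83) .nil))) (.leaf 84)) (.alt (.thr 21 31 (.thr 16 10 (.leaf 85) (.dis 16 (.alt (.dis 9 (.alt (.leaf 86) (.alt (.leaf 87) .nil))) (.alt (.leaf 88) .nil)))) (.thr 32 10 (.leaf 89) (.leaf 90))) .nil)))) .nil))) (.alt (.dis 7 (.alt (.dis 10 (.alt (.leaf 91) (.alt (.leaf 92) .nil))) (.alt (.dis 10 (.alt (.leaf 93) (.alt (.leaf 94) .nil))) .nil))) .nil))) (.alt (.dis 10 (.alt (.dis 7 (.alt (.leaf 95) (.alt (.leaf 96) .nil))) (.alt (.dis 7 (.alt (.leaf 97) (.alt (.leaf 98) .nil))) .nil))) .nil))) (.alt (.dis 7 (.alt (.leaf 99) (.alt (.leaf 100) .nil))) .nil))) (.alt (.leaf 101) .nil)))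

/-- the tree of the pair `P2` -/
def tA2 : Tr := (.dis 3 (.alt (.dis 7 (.alt (.dis 6 (.alt (.dis 10 (.alt (.leaf 102) (.alt (.leaf 103) .nil))) (.alt (.leaf 104) .nil))) (.alt (.leaf 105) .nil))) (.alt (.dis 7 (.alt (.dis 6 (.alt (.dis 10 (.alt (.dis 8 (.alt (.dis 5 (.alt (.leaf 106) (.alt (.leaf 107) .nil))) (.alt (.leaf 108) .nil))) (.alt (.dis 8 (.alt (.thr 20 10 (.leaf 109) (.dis 15 (.alt (.dis 16 (.alt (.dis 5 (.alt (.leaf 110) (.alt (.leaf 111) .nil))) (.alt (.leaf 112) .nil))) (.alt (.leaf 113) .nil)))) (.alt (.leaf 114) .nil))) .nil))) (.alt (.leaf 115) .nil))) (.alt (.leaf 116) .nil))) .nil)))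

/-- the tree of the pair `P3` -/
def tA3 : Tr := (.dis 3 (.alt (.dis 15 (.alt (.dis 16 (.alt (.thr 20 10 (.leaf 117) (.dis 7 (.alt (.dis 10 (.alt (.leaf 118) (.alt (.leaf 119) .nil))) (.alt (.leaf 120) .nil)))) (.alt (.leaf 121) .nil))) (.alt (.leaf 122) .nil))) (.alt (.thr 20 10 (.leaf 123) (.dis 6 (.alt (.dis 7 (.alt (.dis 10 (.alt (.leaf 124) (.alt (.leaf 125) .nil))) (.alt (.leaf 126) .nil))) (.alt (.leaf 127) .nil)))) .nil)))

/-- the tree of the pair `P4` -/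
def tA4 : Tr := (.dis 3 (.alt (.thr 16 10 (.leaf 128) (.dis 5 (.alt (.dis 8 (.alt (.leaf 129) (.alt (.leaf 130) .nil))) (.alt (.leaf 131) .nil)))) (.alt (.leaf 132) .nil)))

/-- the tree -/
def tA : Tr := .dis 0 (.alt tA1 (.alt tA2 (.alt tA3 (.alt tA4 .nil))))

/-- the leaves -/
def lA : List Leaf := [
  a0, a1, a2, a3, a4, a5, a6, a7, a8, a9, a10, a11,
  a12, a13, a14, a15, a16, a17, a18, a19, a20, a21, a22, a23,
  a24, a25, a26, a27, a28, a29, a30, a31, a32, a33, a34, a35,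
  a36, a37, a38, a39, a40, a41, a42, a43, a44, a45, a46, a47,
  a48, a49, a50, a51, a52, a53, a54, a55, a56, a57, a58, a59,
  a60, a61, a62, a63, a64, a65, a66, a67, a68, a69, a70, a71,
  a72, a73, a74, a75, a76, a77, a78, a79, a80, a81, a82, a83,
  a84, a85, a86, a87, a88, a89, a90, a91, a92, a93, a94, a95,
  a96, a97, a98, a99, a100, a101, a102, a103, a104, a105, a106, a107,
  a108, a109, a110, a111, a112, a113, a114, a115, a116, a117, a118, a119,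
  a120, a121, a122, a123, a124, a125, a126, a127, a128, a129, a130, a131,
  a132]

theorem lA_len : lA.length = 133 := rfl

theorem lA_ok : AllOk lA :=
  ⟨a0_ok, a1_ok, a2_ok, a3_ok, a4_ok, a5_ok, a6_ok, a7_ok,
  a8_ok, a9_ok, a10_ok, a11_ok, a12_ok, a13_ok, a14_ok, a15_ok,
  a16_ok, a17_ok, a18_ok, a19_ok, a20_ok, a21_ok, a22_ok, a23_ok,
  a24_ok, a25_ok, a26_ok, a27_ok, a28_ok, a29_ok, a30_ok, a31_ok,
  a32_ok, a33_ok, a34_ok, a35_ok, a36_ok, a37_ok, a38_ok, a39_ok,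
  a40_ok, a41_ok, a42_ok, a43_ok, a44_ok, a45_ok, a46_ok, a47_ok,
  a48_ok, a49_ok, a50_ok, a51_ok, a52_ok, a53_ok, a54_ok, a55_ok,
  a56_ok, a57_ok, a58_ok, a59_ok, a60_ok, a61_ok, a62_ok, a63_ok,
  a64_ok, a65_ok, a66_ok, a67_ok, a68_ok, a69_ok, a70_ok, a71_ok,
  a72_ok, a73_ok, a74_ok, a75_ok, a76_ok, a77_ok, a78_ok, a79_ok,
  a80_ok, a81_ok, a82_ok, a83_ok, a84_ok, a85_ok, a86_ok, a87_ok,
  a88_ok, a89_ok, a90_ok, a91_ok, a92_ok, a93_ok, a94_ok, a95_ok,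
  a96_ok, a97_ok, a98_ok, a99_ok, a100_ok, a101_ok, a102_ok, a103_ok,
  a104_ok, a105_ok, a106_ok, a107_ok, a108_ok, a109_ok, a110_ok, a111_ok,
  a112_ok, a113_ok, a114_ok, a115_ok, a116_ok, a117_ok, a118_ok, a119_ok,
  a120_ok, a121_ok, a122_ok, a123_ok, a124_ok, a125_ok, a126_ok, a127_ok,
  a128_ok, a129_ok, a130_ok, a131_ok, a132_ok,
  trivial⟩

theorem cA : chk nodes 133 (fun n => (nth a0 lA n).ats) tA (wit false) none = true := by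
  decide +kernel

/-- the tree of the pair `P1` -/
def tB1 : Tr := (.dis 3 (.alt (.dis 5 (.alt (.dis 8 (.alt (.dis 2 (.alt (.dis 7 (.alt (.dis 6 (.alt (.dis 9 (.alt (.thr 17 42 (.thr 28 10 (.thr 0 19 (.dis 10 (.alt (.leaf 0) (.alt (.leaf 1) .nil))) (.dis 10 (.alt (.leaf 2) (.alt (.leaf 3) .nil)))) (.thr 31 27 (.thr 21 31 (.dis 15 (.alt (.leaf 4) (.alt (.leaf 5) .nil))) (.dis 10 (.alt (.leaf 6) (.alt (.leaf 7) .nil)))) (.dis 10 (.alt (.dis 16 (.alt (.thr 24 10 (.leaf 8) (.thr 32 10 (.leaf 9) (.leaf 10))) (.alt (.leaf 11) .nil))) (.alt (.leaf 12) .nil))))) (.dis 10 (.alt (.thr 16 10 (.leaf 13) (.thr 32 10 (.leaf 14) (.dis 15 (.alt (.dis 13 (.alt (.leaf 15) (.alt (.leaf 16) .nil))) (.alt (.leaf 17) .nil))))) (.alt (.leaf 18) .nil)))) (.alt (.thr 0 19 (.thr 16 10 (.thr 20 29 (.leaf 19) (.dis 10 (.alt (.leaf 20) (.alt (.leaf 21) .nil)))) (.thr 19 29 (.thr 21 29 (.leaf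 22) (.dis 10 (.alt (.leaf 23) (.alt (.leaf 24) .nil)))) (.thr 21 35 (.leaf 25) (.dis 15 (.alt (.thr 12 10 (.leaf 26) (.dis 16 (.alt (.thr 32 10 (.leaf 27) (.thr 24 10 (.leaf 28) (.dis 10 (.alt (.leaf 29) (.alt (.leaf 30) .nil))))) (.alt (.leaf 31) .nil)))) (.alt (.leaf 32) .nil)))))) (.thr 16 10 (.leaf 33) (.thr 17 37 (.thr 15 28 (.leaf 34) (.leaf 35)) (.thr 21 27 (.leaf 36) (.leaf 37))))) .nil))) (.alt (.dis 9 (.alt (.thr 28 10 (.dis 10 (.alt (.thr 15 27 (.leaf 38) (.thr 16 10 (.leaf 39) (.thr 32 10 (.leaf 40) (.dis 15 (.alt (.dis 13 (.alt (.leaf 41) (.alt (.leaf 42) .nil))) (.alt (.leaf 43) .nil)))))) (.alt (.leaf 44) .nil))) (.thr 21 34 (.thr 32 10 (.leaf 45) (.dis 16 (.alt (.dis 10 (.alt (.leaf 46) (.alt (.leaf 47) .nil))) (.alt (.leaf 48) .nil)))) (.thr 16 10 (.leaf 49) (.leaf 50)))) (.alt (.thr 21 29 (.thr 6 19 (.dis 10 (.alt (.thr 16 10 (.leaf 51) (.thr 32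 10 (.leaf 52) (.dis 16 (.alt (.dis 13 (.alt (.leaf 53) (.alt (.leaf 54) .nil))) (.alt (.leaf 55) .nil))))) (.alt (.leaf 56) .nil))) (.thr 16 10 (.leaf 57) (.thr 19 23 (.leaf 58) (.leaf 59)))) (.thr 16 10 (.leaf 60) (.dis 10 (.alt (.leaf 61) (.alt (.leaf 62) .nil))))) .nil))) .nil))) (.alt (.thr 6 20 (.thr 21 25 (.dis 9 (.alt (.leaf 63) (.alt (.leaf 64) .nil))) (.dis 10 (.alt (.leaf 65) (.alt (.leaf 66) .nil)))) (.thr 29 25 (.dis 10 (.alt (.leaf 67) (.alt (.leaf 68) .nil))) (.thr 32 10 (.leaf 69) (.leaf 70)))) .nil))) (.alt (.dis 9 (.alt (.dis 7 (.alt (.dis 6 (.alt (.leaf 71) (.alt (.leaf 72) .nil))) (.alt (.leaf 73) .nil))) (.alt (.dis 7 (.alt (.dis 6 (.alt (.leaf 74) (.alt (.leaf 75) .nil))) (.alt (.leaf 76) .nil))) .nil))) .nil))) (.alt (.dis 2 (.alt (.leaf 77) (.alt (.leaf 78) .nil))) .nil))) (.alt (.dis 2 (.alt (.leaf 79) (.alt (.leaf 80) .nil))) .nil))) (.alt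 (.dis 8 (.alt (.dis 5 (.alt (.dis 7 (.alt (.dis 6 (.alt (.leaf 81) (.alt (.leaf 82) .nil))) (.alt (.leaf 83) .nil))) (.alt (.leaf 84) .nil))) (.alt (.leaf 85) .nil))) .nil)))

/-- the tree of the pair `P2` -/
def tB2 : Tr := (.dis 3 (.alt (.dis 7 (.alt (.dis 6 (.alt (.dis 8 (.alt (.dis 5 (.alt (.leaf 86) (.alt (.leaf 87) .nil))) (.alt (.leaf 88) .nil))) (.alt (.leaf 89) .nil))) (.alt (.leaf 90) .nil))) (.alt (.dis 6 (.alt (.dis 7 (.alt (.dis 8 (.alt (.dis 5 (.alt (.leaf 91) (.alt (.leaf 92) .nil))) (.alt (.leaf 93) .nil))) (.alt (.leaf 94) .nil))) (.alt (.leaf 95) .nil))) .nil)))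

/-- the tree of the pair `P3` -/
def tB3 : Tr := (.dis 3 (.alt (.dis 16 (.alt (.thr 12 10 (.leaf 96) (.dis 2 (.alt (.dis 5 (.alt (.thr 8 14 (.dis 7 (.alt (.dis 6 (.alt (.leaf 97) (.alt (.leaf 98) .nil))) (.alt (.leaf 99) .nil))) (.thr 3 28 (.leaf 100) (.dis 8 (.alt (.thr 10 37 (.dis 6 (.alt (.dis 7 (.alt (.leaf 101) (.alt (.leaf 102) .nil))) (.alt (.leaf 103) .nil))) (.leaf 104)) (.alt (.leaf 105) .nil))))) (.alt (.leaf 106) .nil))) (.alt (.leaf 107) .nil)))) (.alt (.leaf 108) .nil))) (.alt (.leaf 109) .nil)))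

/-- the tree of the pair `P4` -/
def tB4 : Tr := (.dis 8 (.alt (.dis 5 (.alt (.dis 6 (.alt (.dis 9 (.alt (.dis 2 (.alt (.dis 7 (.alt (.leaf 110) (.alt (.leaf 111) .nil))) (.alt (.leaf 112) .nil))) (.alt (.dis 2 (.alt (.dis 7 (.alt (.leaf 113) (.alt (.leaf 114) .nil))) (.alt (.leaf 115) .nil))) .nil))) (.alt (.leaf 116) .nil))) (.alt (.leaf 117) .nil))) (.alt (.leaf 118) .nil)))

/-- the tree -/
def tB : Tr := .dis 0 (.alt tB1 (.alt tB2 (.alt tB3 (.alt tB4 .nil))))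

/-- the leaves -/
def lB : List Leaf := [
  b0, b1, b2, b3, b4, b5, b6, b7, b8, b9, b10, b11,
  b12, b13, b14, b15, b16, b17, b18, b19, b20, b21, b22, b23,
  b24, b25, b26, b27, b28, b29, b30, b31, b32, b33, b34, b35,
  b36, b37, b38, b39, b40, b41, b42, b43, b44, b45, b46, b47,
  b48, b49, b50, b51, b52, b53, b54, b55, b56, b57, b58, b59,
  b60, b61, b62, b63, b64, b65, b66, b67, b68, b69, b70, b71,
  b72, b73, b74, b75, b76, b77, b78, b79, b80, b81, b82, b83,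
  b84, b85, b86, b87, b88, b89, b90, b91, b92, b93, b94, b95,
  b96, b97, b98, b99, b100, b101, b102, b103, b104, b105, b106, b107,
  b108, b109, b110, b111, b112, b113, b114, b115, b116, b117, b118]

theorem lB_len : lB.length = 119 := rfl

theorem lB_ok : AllOk lB :=
  ⟨b0_ok, b1_ok, b2_ok, b3_ok, b4_ok, b5_ok, b6_ok, b7_ok,
  b8_ok, b9_ok, b10_ok, b11_ok, b12_ok, b13_ok, b14_ok, b15_ok,
  b16_ok, b17_ok, b18_ok, b19_ok, b20_ok, b21_ok, b22_ok, b23_ok,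
  b24_ok, b25_ok, b26_ok, b27_ok, b28_ok, b29_ok, b30_ok, b31_ok,
  b32_ok, b33_ok, b34_ok, b35_ok, b36_ok, b37_ok, b38_ok, b39_ok,
  b40_ok, b41_ok, b42_ok, b43_ok, b44_ok, b45_ok, b46_ok, b47_ok,
  b48_ok, b49_ok, b50_ok, b51_ok, b52_ok, b53_ok, b54_ok, b55_ok,
  b56_ok, b57_ok, b58_ok, b59_ok, b60_ok, b61_ok, b62_ok, b63_ok,
  b64_ok, b65_ok, b66_ok, b67_ok, b68_ok, b69_ok, b70_ok, b71_ok,
  b72_ok, b73_ok, b74_ok, b75_ok, b76_ok, b77_ok, b78_ok, b79_ok,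
  b80_ok, b81_ok, b82_ok, b83_ok, b84_ok, b85_ok, b86_ok, b87_ok,
  b88_ok, b89_ok, b90_ok, b91_ok, b92_ok, b93_ok, b94_ok, b95_ok,
  b96_ok, b97_ok, b98_ok, b99_ok, b100_ok, b101_ok, b102_ok, b103_ok,
  b104_ok, b105_ok, b106_ok, b107_ok, b108_ok, b109_ok, b110_ok, b111_ok,
  b112_ok, b113_ok, b114_ok, b115_ok, b116_ok, b117_ok, b118_ok,
  trivial⟩

theorem cB : chk nodes 119 (fun n => (nth b0 lB n).ats) tB (wit true) none = true := by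
  decide +kernel

/-- **`TwoLowNE` is true.** -/
theorem twoLowNE : TwoLowNE :=
  twoLowNE_of_trees (N := 133) (M := 119) (L := fun n => (nth a0 lA n).ats)
    (K := fun n => (nth b0 lB n).ats) (t := tA) (s := tB)
    (fun n hn c hc hs => leaf_ok (lA_ok.nth n (by rw [lA_len]; exact hn)) c hc hs)
    (fun n hn c hc hs => leaf_ok (lB_ok.nth n (by rw [lB_len]; exact hn)) c hc hs) cA cB

end Pool.Agent.Helper59.NE
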